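import Mathlib

set_option autoImplicit false

namespace Pool.Agent.Results.MP_b304a3_nt.NonSquareSum

theorem result :
    ¬ (∀ a b c d e f g h i S : ℕ,
        0 < a → 0 < b → 0 < c → 0 < d → 0 < e → 0 < f → 0 < g → 0 < h → 0 < i →
        [a ^ 2, b ^ 2, c ^ 2, d ^ 2, e ^ 2, f ^ 2, g ^ 2, h ^ 2, i ^ 2].Nodup →
        a ^ 2 + b ^ 2 + c ^ 2 = S → d ^ 2 + e ^ 2 + f ^ 2 = S → g ^ 2 + h ^ 2 + i ^ 2 = S →
        a ^ 2 + d ^ 2 + g ^ 2 = S → b ^ 2 + e ^ 2 + h ^ 2 = S → c ^ 2 + f ^ 2 + i ^ 2 = S →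
        ((a ^ 2 + e ^ 2 + i ^ 2 = S ∧ c ^ 2 + e ^ 2 + g ^ 2 ≠ S) ∨
          (c ^ 2 + e ^ 2 + g ^ 2 = S ∧ a ^ 2 + e ^ 2 + i ^ 2 ≠ S)) →
        IsSquare S) := by
  intro H
  have h := H 3495 35 2958 2058 2775 3005 2125 3642 1785 20966014
    (by norm_num) (by norm_num) (by norm_num) (by norm_num) (by norm_num) (by norm_num)
    (by norm_num) (by norm_num) (by norm_num) (by decide +kernel)
    (by norm_num) (by norm_num) (by norm_num) (by norm_num) (by norm_num) (by norm_num)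
    (Or.inr ⟨by norm_num, by norm_num⟩)
  obtain ⟨r, hr⟩ := h
  have h1 : r ≤ 4578 ∨ 4579 ≤ r := by omega
  rcases h1 with h1 | h1 <;> nlinarith

end Pool.Agent.Results.MP_b304a3_nt.NonSquareSum
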